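import Pool.Agent.H.MP_3d6d95_lc.F

set_option autoImplicit false

namespace Pool.Agent.Results.MP_3d6d95_lc.Undet

open Set SimpleGraph Cardinal Pool.Agent.H.MP_5af839_lc Pool.Agent.H.MP_3d6d95_lc

variable {σ : Pos → Sym2 ℕ} {τ : Pos → Sym2 ℕ → Bool}

theorem swin (hσ : Legal σ) {F : Set (SimpleGraph ℕ)} :
    SWin (SS F) σ τ ↔ (Wh σ τ).Nonempty ∧ (PP σ τ ∈ SS F → GG σ τ ∈ SS F) := by
  have k : ∀ H, H ∈ Poss σ τ ↔ GG σ τ ≤ H ∧ H ≤ PP σ τ := fun H =>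
    ⟨fun h => ⟨fun _ _ a => h.1 a.1, fun a b e => ⟨h.2 (show s(a, b) ∈ H.edgeSet from e), e.ne⟩⟩,
      fun h => ⟨by
        rintro ⟨a, b⟩ ⟨n, e⟩
        obtain ⟨m, -, e', -⟩ := mem_play.1 e
        exact h.1 ⟨⟨n, e⟩, by simpa [← e'] using (hσ (play σ τ m)).1⟩, by
        rintro ⟨a, b⟩ e
        exact (h.2 e).1⟩⟩
  refine and_congr_right fun _ => ⟨fun h p => h.elim (fun h => h ((k _).2 ⟨le_rfl, gg_le τ⟩))
    fun h => (h.subset ⟨(k _).2 ⟨gg_le τ, le_rfl⟩, p⟩).elim, fun h => ?_⟩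
  by_cases p : PP σ τ ∈ SS F
  exacts [.inl fun H a => ss_mono ((k H).1 a).1 (h p),
    .inr (eq_empty_of_forall_notMem fun H a => p (ss_mono ((k H).1 a.1).2 a.2))]

theorem allbut (hσ : Legal σ) {u v : ℕ} (huv : u ≠ v) {n0 : ℕ}
    (h0 : ∀ b, (s(u, v), b) ∉ play σ τ n0)
    (h : ∀ n ≥ n0, σ (play σ τ n) ≠ s(u, v) ∧ ∀ e, ¬e.IsDiag → e ≠ s(u, v) →
      (∀ b, (e, b) ∉ play σ τ n) → rk (σ (play σ τ n)) ≤ rk e) :
    s(u, v) ∈ Wh σ τ ∧ (∀ a b, (PP σ τ).Adj a b → (GG σ τ).Adj a b ∨ s(a, b) = s(u, v)) ∧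
      {p : ℕ × ℕ | (PP σ τ).Adj p.1 p.2 ∧ ¬(GG σ τ).Adj p.1 p.2}.Finite := by
  have h2 : ∀ a b, (PP σ τ).Adj a b → (GG σ τ).Adj a b ∨ s(a, b) = s(u, v) := fun a b e =>
    e.1.imp (⟨·, e.ne⟩) fun w => by_contra fun ne =>
      let ⟨n, b, hb⟩ := fair hσ rk rk_fin _ n0 fun n hn => (h n hn).2 _ w.1 ne
      w.2 n b hb
  refine ⟨⟨by simpa, fun n b hb => ?_⟩, h2, (toFinite {(u, v), (v, u)}).subset fun q hq => ?_⟩
  · obtain ⟨k, -, h1, h2⟩ := mem_play.1 hb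
    rcases lt_or_ge k n0 with l | l
    exacts [h0 b (mem_play.2 ⟨k, l, h1, h2⟩), (h k l).1 h1.symm]
  · simpa [Prod.ext_iff] using (h2 _ _ hq.1).resolve_left hq.2

theorem hideD (τ : Pos → Sym2 ℕ → Bool) : (∃ σ, Legal σ ∧ ∀ F, SWin (SS F) σ τ) ∨
    ∀ A : Set ℕ, ∃ G, {y | Uns (DD A) G y}.Finite ∧ ∃ σ, Legal σ ∧
      ∀ F, (∀ P ∈ F, P.Connected ∧ ¬App P G) → SWin (SS F) σ τ := by
  classical
  refine or_iff_not_imp_left.2 fun h0 A => ?_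
  obtain ⟨σ, hσ, h⟩ := pick s(0, 1) fun p =>
    {e | ∃ x y, e = s(x, y) ∧ y < x ∧ ¬Rt (DD A) (Gle (Gp p) x) y}
  have le1 : ∀ {σ} n, Gp (play σ τ n) ≤ GG σ τ := fun n =>
    fromEdgeSet_mono fun e he => ⟨n, he⟩
  have sf : ∀ n, Safe (play σ τ n) := fun n u v huv r => by_contra fun hw => by
    obtain ⟨σ1, l1, h1⟩ := pick s(u, v) fun _ => ∅
    let σ' : Pos → Sym2 ℕ := fun p => if p.length < n then σ p else σ1 p
    have l2 : Legal σ' := fun p => by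
      simp only [σ']
      split_ifs
      exacts [hσ p, l1 p]
    have e : play σ' τ n = play σ τ n :=
      play_congr (fun p hp => ⟨if_pos hp, fun _ => rfl⟩) n le_rfl
    obtain ⟨a1, b2, b3⟩ := allbut (τ := τ) l2 huv (n0 := n) (fun b hb => hw ⟨b, e ▸ hb⟩)
      fun k hk => by
        rw [show σ' (play σ' τ k) = σ1 (play σ' τ k) from if_neg (by simpa [len])]
        exact ⟨(h1 _).1, fun e a b c => ((h1 _).2 e a b c).1⟩
    have r' := (e ▸ r : (Gp (play σ' τ n)).Reachable u v).mono (le1 n)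
    exact h0 ⟨σ', l2, fun F => (swin l2).2 ⟨⟨_, a1⟩, clo (.refl ℕ) b3 fun x y h =>
      (reach_edge b2 h).elim id fun h => h.elim
        (fun h => h.1.trans (r'.trans h.2)) fun h => h.1.trans (r'.symm.trans h.2)⟩⟩
  obtain ⟨a1, a2, a3⟩ := allbut (τ := τ) hσ zero_ne_one (n0 := 0) (by simp [play]) fun k _ =>
    ⟨(h _).1, fun e a b c => ((h _).2 e a b c).1⟩
  obtain ⟨d1, d2⟩ := deg (DD_inf A) (G := GG σ τ) <| by
    have gle : ∀ t x y, σ (play σ τ t) = s(x, y) → y < x →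
        Gle (Gp (play σ τ t)) x = Gle (GG σ τ) x := by
      intro t x y e l
      ext a b
      simp only [gle_adj, and_congr_left_iff]
      refine fun ⟨l1, l2⟩ => ⟨fun h => le1 t h, fun ⟨⟨n, h1⟩, ne⟩ => ⟨?_, ne⟩⟩
      obtain ⟨k, -, h1, h2⟩ := mem_play.1 h1
      refine mem_play.2 ⟨k, not_le.1 fun l3 => ?_, h1, h2⟩
      have := ((h (play σ τ t)).2 s(a, b) (by simpa) (h1 ▸ (h _).1) fun c hc =>
        (hσ _).2 c (h1 ▸ play_mono l3 hc)).1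
      rw [e] at this
      simp only [rk, Sym2.lift_mk] at this
      omega
    rintro x y l ⟨⟨n, h1⟩, -⟩
    obtain ⟨t, -, h1, h2⟩ := mem_play.1 h1
    by_contra nr
    obtain ⟨r, r1, r2, r3⟩ := rt_ex (DD A) (GG σ τ) l
    have g : Gp (play σ τ t) ≤ Gp (play σ τ (t + 1)) :=
      fromEdgeSet_mono fun e he => play_mono t.le_succ he
    obtain ⟨b, hb⟩ := sf (t + 1) x r r1.ne' ((show (Gp (play σ τ (t + 1))).Adj x y from
      ⟨mem_play.2 ⟨t, t.lt_succ_self, h1, h2⟩, l.ne'⟩).reachable.trans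
      ((gle t x y h1.symm l ▸ r3).mono (inf_le_left.trans g)))
    obtain ⟨k, k1, k2, -⟩ := mem_play.1 hb
    have loc := gle k x r k2.symm r1
    obtain ⟨x', y', e, l', nr'⟩ := ((h (play σ τ k)).2 s(x, y) (by simpa using l.ne')
      (h1 ▸ (h _).1) fun c hc => (hσ _).2 c (h1 ▸ play_mono (Nat.le_of_lt_succ k1) hc)).2
      (by rw [← k2]; simp only [rk, Sym2.lift_mk]; omega) ⟨x, y, rfl, l, loc ▸ nr⟩
    rcases Sym2.eq_iff.1 (k2.trans e) with ⟨rfl, rfl⟩ | ⟨rfl, rfl⟩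
    exacts [nr' (loc ▸ r2), by omega]
  have d3 : ∀ v, {w | (PP σ τ).Adj v w}.Finite := fun v =>
    ((d1 v).union (a3.image Prod.snd)).subset fun w a => by
      by_cases k : (GG σ τ).Adj v w
      exacts [.inl k, .inr ⟨(v, w), ⟨a, k⟩, rfl⟩]
  have d4 : ∀ F, PP σ τ ∈ SS F → (PP σ τ).Connected ∧ ∃ P ∈ F, Emb P (PP σ τ) := fun F k => by
    rcases k with ⟨E, e1, e2⟩ | ⟨c, ⟨v, k⟩ | k⟩
    · obtain ⟨y, hy⟩ := (e1.union (e1.biUnion fun v _ => d3 v)).exists_notMem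
      obtain ⟨a, b, c⟩ := e2 y fun k => hy (.inl k)
      exact (hy (.inr (mem_iUnion₂.2 ⟨a, b, c⟩))).elim
    · exact (k (d3 v)).elim
    · exact ⟨c, k⟩
  have c : (PP σ τ).Connected := by_contra fun c => h0 ⟨σ, hσ, fun F => (swin hσ).2
    ⟨⟨_, a1⟩, fun k => (c (d4 F k).1).elim⟩⟩
  have ac : (GG σ τ).IsAcyclic := by
    have : ∀ n, (Gp (play σ τ n)).IsAcyclic := fun n => by
      induction n with
      | zero => simp [Gp, play]
      | succ n ih =>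
        obtain ⟨⟨x, y⟩, e⟩ : ∃ q : ℕ × ℕ, σ (play σ τ n) = s(q.1, q.2) :=
          (Quot.exists_rep _).imp fun _ => Eq.symm
        have ne : x ≠ y := by simpa [e] using (hσ (play σ τ n)).1
        refine (ih.sup_edge_of_not_reachable (u := x) (v := y) fun r => ?_).anti fun a b m => ?_
        · obtain ⟨β, m⟩ := sf n x y ne r
          exact (hσ _).2 β (e ▸ m)
        · simp only [Gp, play, fromEdgeSet_adj, mem_ofPred_eq, List.mem_cons, Prod.mk.injEq,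
            sup_adj, edge_adj, e, Sym2.eq_iff] at m ⊢
          exact m.1.symm.imp (⟨·, m.2⟩) fun k => ⟨k.1, m.2⟩
    have k := isAcyclic_sSup_of_isAcyclic_directedOn (range fun n => Gp (play σ τ n))
      (forall_mem_range.2 this) (directedOn_range.2 (Monotone.directed_le fun m n l =>
        fromEdgeSet_mono fun _ => play_mono l))
    exact k.anti fun a b ⟨⟨n, m⟩, ne⟩ => sSup_adj.2 ⟨Gp (play σ τ n), mem_range_self n, m, ne⟩
  refine ⟨GG σ τ, ?_, σ, hσ, fun F hF => (swin hσ).2 ⟨⟨_, a1⟩, fun k => ?_⟩⟩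
  · have : ∀ x, {y | Fin' (GG σ τ) y ∧ (GG σ τ).Reachable x y}.Finite := fun x => by
      by_cases f : Fin' (GG σ τ) x
      exacts [f.subset fun _ h => h.2, finite_empty.subset fun y h =>
        f (h.1.subset fun z r => h.2.symm.trans r)]
    refine ((this 0).union (this 1)).subset fun y hy => ?_
    rcases reach_edge a2 (c 0 y) with r | r | r
    exacts [.inl ⟨d2 y hy, r⟩, .inr ⟨d2 y hy, r.2⟩, .inl ⟨d2 y hy, r.2⟩]
  · obtain ⟨P, p1, p2⟩ := (d4 F k).2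
    exact ((hF P p1).2 (emb_app (hF P p1).1 ac (p2.trans ⟨.refl ℕ, a3⟩))).elim

/-- There is a monotone graph property whose edge-query game is undetermined. -/
theorem result : ∃ S : Set (SimpleGraph ℕ), (∀ G ∈ S, ∀ G', Nonempty (G ≃g G') → G' ∈ S) ∧
    (∀ G ∈ S, ∀ G', G ≤ G' → G' ∈ S) ∧
    (∀ σ, Legal σ → ∃ τ, ¬SWin S σ τ) ∧ ∀ τ, ∃ σ, Legal σ ∧ SWin S σ τ := by
  classical
  let P1 : (Pos → Sym2 ℕ) → SimpleGraph ℕ → Prop := fun σ H =>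
    H.Connected ∧ ∃ τ, Bad σ τ ∧ H = PP σ τ
  let P2 : (Pos → Sym2 ℕ → Bool) → SimpleGraph ℕ → Prop := fun τ G =>
    ∃ σ, Legal σ ∧ ∀ F, (∀ P ∈ F, P.Connected ∧ ¬App P G) → SWin (SS F) σ τ
  refine (select (ι := {σ // Legal σ ∧ ¬Win σ} ⊕
      {τ // ∀ A : Set ℕ, ∃ G, {y | Uns (DD A) G y}.Finite ∧ P2 τ G}) ?_
    (Sum.elim (fun σ => P1 σ.1) fun τ => P2 τ.1) (fun G K => ¬App G K) (fun _ _ h k => h k.symm)
    ?_).elim fun f ⟨f1, f2⟩ => ?_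
  rotate_left 2
  · refine ⟨SS (range fun σ => f (.inl σ)), ?_, fun G h G' l => ss_mono l h, fun σ hσ => ?_,
      fun τ => ?_⟩
    · rintro G h G' ⟨φ⟩
      exact clo φ.toEquiv (finite_empty.subset fun q hq => hq.2 (φ.map_adj_iff.2 hq.1))
        (fun x y => φ.reachable_iff.2) h
    · obtain ⟨τ, h1, h2⟩ : ∃ τ, Bad σ τ ∧ PP σ τ ∈ SS (range fun σ => f (.inl σ)) := by
        by_cases w : Win σ
        · exact w.imp fun τ h => ⟨h.1, h.2.imp_right fun h => ⟨h.1, .inl h.2⟩⟩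
        · obtain ⟨c, τ, h1, h2⟩ := f1 (.inl ⟨σ, hσ, w⟩)
          exact ⟨τ, h1, .inr ⟨h2 ▸ c, .inr ⟨_, ⟨⟨σ, hσ, w⟩, h2⟩, .refl ℕ,
            finite_empty.subset fun q hq => hq.2 hq.1⟩⟩⟩
      exact ⟨τ, fun w => let ⟨a, b⟩ := (swin hσ).1 w; (b h2).elim h1.2 fun k => h1.1 a k.1⟩
    · rcases hideD τ with ⟨σ, a1, a2⟩ | h
      · exact ⟨σ, a1, a2 _⟩
      · obtain ⟨σ, a1, a2⟩ := f1 (.inr ⟨τ, h⟩)
        exact ⟨σ, a1, a2 _ (forall_mem_range.2 fun σ' =>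
          ⟨(f1 (.inl σ')).1, f2 _ _ Sum.inl_ne_inr⟩)⟩
  · rw [mk_sum, lift_id, lift_id]
    refine (add_le_add (mk_subtype_le _) (mk_subtype_le _)).trans_eq ?_
    simp
  · rintro (⟨σ, h⟩ | ⟨τ, h⟩) D hD
    · obtain ⟨τ, h1, h2⟩ := fam' h.1 h.2
      obtain ⟨A, hA⟩ := avoid' _ h2 D hD
      exact ⟨_, ⟨(h1 A).2, τ A, (h1 A).1, rfl⟩, hA⟩
    · choose G h1 h2 using id h
      obtain ⟨A, hA⟩ := avoid' G (fun A B k => DD_ad (uns_sep (h1 A) (h1 B) k)) D hD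
      exact ⟨G A, h2 A, hA⟩

end Pool.Agent.Results.MP_3d6d95_lc.Undet
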